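import Pool.Agent.Helper18.SV.Goals

/-!
Project SV (MP_cb0067_co): goal FIB.
-/

open Finset
open scoped Pointwise

namespace Pool.Agent.Helper28.SV.FIB

open Pool.Agent.Helper18.SV Pool.Agent.Helper95.SF

universe u

section

variable {G H : Type u} [AddCommGroup G] [Fintype G] [DecidableEq G]
    [AddCommGroup H] [Fintype H] [DecidableEq H]

theorem fiber_card (f : G →+ H) (hf : Function.Surjective f) (k : ℕ)
    (hk : k * Fintype.card H = Fintype.card G) (x : H) :
    (Finset.univ.filter (fun g => f g = x)).card = k := by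
  have h1 : (Finset.univ : Finset G).card =
      ∑ y ∈ (Finset.univ : Finset H), (Finset.univ.filter (fun g => f g = y)).card :=
    Finset.card_eq_sum_card_fiberwise (fun _ _ => Finset.mem_coe.2 (Finset.mem_univ _))
  have h2 : ∀ y ∈ (Finset.univ : Finset H), (Finset.univ.filter (fun g => f g = y)).card =
      (Finset.univ.filter (fun g => f g = x)).card := by
    intro y _
    exact AddMonoidHom.card_fiber_eq_of_mem_range f (hf y) (hf x)
  rw [Finset.sum_congr rfl h2, Finset.sum_const, smul_eq_mul, Finset.card_univ,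
    Finset.card_univ, ← hk, mul_comm] at h1
  have h3 : 0 < Fintype.card H := Fintype.card_pos_iff.2 ⟨0⟩
  exact (Nat.eq_of_mul_eq_mul_left h3 h1).symm

theorem fib_le (f : G →+ H) (hf : Function.Surjective f) (k : ℕ)
    (hk : k * Fintype.card H = Fintype.card G) (A : Finset G) (x : H) :
    (A.filter (fun g => f g = x)).card ≤ k := by
  rw [← fiber_card f hf k hk x]
  exact Finset.card_le_card (Finset.filter_subset_filter _ (Finset.subset_univ _))

theorem two_fib (f : G →+ H) (hf : Function.Surjective f) (k : ℕ)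
    (hk : k * Fintype.card H = Fintype.card G) (A : Finset G)
    (hA : (A.image f).card * k < A.card + k) {x x' : H} (hx : x ∈ A.image f)
    (hx' : x' ∈ A.image f) (hne : x ≠ x') :
    k < (A.filter (fun g => f g = x)).card + (A.filter (fun g => f g = x')).card := by
  have h1 : A.card = ∑ y ∈ A.image f, (A.filter (fun g => f g = y)).card :=
    Finset.card_eq_sum_card_image f A
  have h2 : x' ∈ (A.image f).erase x := Finset.mem_erase.2 ⟨hne.symm, hx'⟩
  rw [← Finset.add_sum_erase _ _ hx, ← Finset.add_sum_erase _ _ h2] at h1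
  have h3 : ∑ y ∈ ((A.image f).erase x).erase x', (A.filter (fun g => f g = y)).card ≤
      (((A.image f).erase x).erase x').card * k := by
    have := Finset.sum_le_card_nsmul (((A.image f).erase x).erase x')
      (fun y => (A.filter (fun g => f g = y)).card) k (fun y _ => fib_le f hf k hk A y)
    rwa [smul_eq_mul] at this
  rw [Finset.card_erase_of_mem h2, Finset.card_erase_of_mem hx] at h3
  have h4 : 2 ≤ (A.image f).card := by
    have h5 : 0 < ((A.image f).erase x).card := Finset.card_pos.2 ⟨x', h2⟩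
    rw [Finset.card_erase_of_mem hx] at h5
    omega
  obtain ⟨m, hm⟩ := Nat.exists_eq_add_of_le h4
  rw [hm] at h3 hA
  have h6 : 2 + m - 1 - 1 = m := by omega
  rw [h6] at h3
  nlinarith

theorem ex_add (f : G →+ H) (hf : Function.Surjective f) (k : ℕ)
    (hk : k * Fintype.card H = Fintype.card G) (A : Finset G)
    (hA : (A.image f).card * k < A.card + k) {x x' : H} (hx : x ∈ A.image f)
    (hx' : x' ∈ A.image f) (hne : x ≠ x') (g : G) (hg : f g = x + x') :
    ∃ u ∈ A, ∃ v ∈ A, f u = x ∧ f v = x' ∧ u + v = g := by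
  by_contra hcon
  have h1 := two_fib f hf k hk A hA hx hx' hne
  have h2 : Disjoint (A.filter (fun g => f g = x))
      ((A.filter (fun g => f g = x')).image (fun v => g - v)) := by
    rw [Finset.disjoint_left]
    intro u hu hu'
    obtain ⟨v, hv, hvu⟩ := Finset.mem_image.1 hu'
    rw [Finset.mem_filter] at hu hv
    exact hcon ⟨u, hu.1, v, hv.1, hu.2, hv.2, by rw [← hvu]; abel⟩
  have h3 : (A.filter (fun g => f g = x)) ∪
      ((A.filter (fun g => f g = x')).image (fun v => g - v)) ⊆
      Finset.univ.filter (fun g => f g = x) := by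
    intro w hw
    rw [Finset.mem_filter]
    refine ⟨Finset.mem_univ _, ?_⟩
    rcases Finset.mem_union.1 hw with hw | hw
    · exact (Finset.mem_filter.1 hw).2
    · obtain ⟨v, hv, rfl⟩ := Finset.mem_image.1 hw
      rw [map_sub, hg, (Finset.mem_filter.1 hv).2]
      abel
  have h4 := Finset.card_le_card h3
  rw [Finset.card_union_of_disjoint h2, fiber_card f hf k hk x,
    Finset.card_image_of_injective _ (fun a b hab => sub_right_injective hab)] at h4
  omega

theorem ex_sub (f : G →+ H) (hf : Function.Surjective f) (k : ℕ)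
    (hk : k * Fintype.card H = Fintype.card G) (A : Finset G)
    (hA : (A.image f).card * k < A.card + k) {x x' : H} (hx : x ∈ A.image f)
    (hx' : x' ∈ A.image f) (hne : x ≠ x') (g : G) (hg : f g = x - x') :
    ∃ u ∈ A, ∃ v ∈ A, f u = x ∧ f v = x' ∧ u - v = g := by
  by_contra hcon
  have h1 := two_fib f hf k hk A hA hx hx' hne
  have h2 : Disjoint (A.filter (fun g => f g = x))
      ((A.filter (fun g => f g = x')).image (fun v => g + v)) := by
    rw [Finset.disjoint_left]
    intro u hu hu'
    obtain ⟨v, hv, hvu⟩ := Finset.mem_image.1 hu'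
    rw [Finset.mem_filter] at hu hv
    exact hcon ⟨u, hu.1, v, hv.1, hu.2, hv.2, by rw [← hvu]; abel⟩
  have h3 : (A.filter (fun g => f g = x)) ∪
      ((A.filter (fun g => f g = x')).image (fun v => g + v)) ⊆
      Finset.univ.filter (fun g => f g = x) := by
    intro w hw
    rw [Finset.mem_filter]
    refine ⟨Finset.mem_univ _, ?_⟩
    rcases Finset.mem_union.1 hw with hw | hw
    · exact (Finset.mem_filter.1 hw).2
    · obtain ⟨v, hv, rfl⟩ := Finset.mem_image.1 hw
      rw [map_add, hg, (Finset.mem_filter.1 hv).2]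
      abel
  have h4 := Finset.card_le_card h3
  rw [Finset.card_union_of_disjoint h2, fiber_card f hf k hk x,
    Finset.card_image_of_injective _ (fun a b hab => add_right_injective g hab)] at h4
  omega

/-- lifting of multisets -/
theorem lift (f : G →+ H) (A : Finset G) (U : Multiset H) (hU : ∀ a ∈ U, a ∈ A.image f) :
    ∃ W : Multiset G, (∀ a ∈ W, a ∈ A) ∧ Multiset.card W = Multiset.card U ∧
      f W.sum = U.sum := by
  induction U using Multiset.induction with
  | empty => exact ⟨0, by simp, by simp, by simp⟩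
  | cons a U ih =>
    obtain ⟨W, h1, h2, h3⟩ := ih (fun b hb => hU b (Multiset.mem_cons_of_mem hb))
    obtain ⟨g, hg, hga⟩ := Finset.mem_image.1 (hU a (Multiset.mem_cons_self a U))
    refine ⟨g ::ₘ W, ?_, by simp [h2], by simp [h3, hga]⟩
    intro b hb
    rcases Multiset.mem_cons.1 hb with rfl | hb
    · exact hg
    · exact h1 b hb

/-- two different members on the same side -/
theorem same (f : G →+ H) (hf : Function.Surjective f) (k s : ℕ)
    (hk : k * Fintype.card H = Fintype.card G) (A : Finset G) (hsf : IsSumFree s A)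
    (hA : (A.image f).card * k < A.card + k) {x x' : H} (hne : x ≠ x') (U V : Multiset H)
    (hU : ∀ a ∈ U, a ∈ A.image f) (hV : ∀ a ∈ V, a ∈ A.image f)
    (hUs : Multiset.card U ≤ s) (hVs : Multiset.card V ≤ s)
    (hc : Multiset.card U ≠ Multiset.card V) (he : U.sum = V.sum) (hx : x ∈ U) (hx' : x' ∈ U) :
    False := by
  obtain ⟨U1, rfl⟩ := Multiset.exists_cons_of_mem hx
  have hx1 : x' ∈ U1 := by
    rcases Multiset.mem_cons.1 hx' with h | h
    · exact absurd h.symm hne
    · exact h
  obtain ⟨U2, rfl⟩ := Multiset.exists_cons_of_mem hx1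
  obtain ⟨W, h1, h2, h3⟩ := lift f A U2 (fun b hb =>
    hU b (Multiset.mem_cons_of_mem (Multiset.mem_cons_of_mem hb)))
  obtain ⟨Z, h4, h5, h6⟩ := lift f A V hV
  obtain ⟨u, hu, v, hv, -, -, huv⟩ := ex_add f hf k hk A hA (hU x hx) (hU x' hx') hne
    (Z.sum - W.sum) (by
      rw [map_sub, h3, h6, ← he, Multiset.sum_cons, Multiset.sum_cons]
      abel)
  refine (isSumFree_iff s A).1 hsf (u ::ₘ v ::ₘ W) Z ?_ h4 ?_ ?_ ?_ ?_
  · intro b hb
    rcases Multiset.mem_cons.1 hb with rfl | hb
    · exact hu
    rcases Multiset.mem_cons.1 hb with rfl | hb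
    · exact hv
    · exact h1 b hb
  · rw [Multiset.card_cons, Multiset.card_cons, h2]
    rwa [Multiset.card_cons, Multiset.card_cons] at hUs
  · rw [h5]; exact hVs
  · rw [Multiset.card_cons, Multiset.card_cons, h2, h5]
    rwa [Multiset.card_cons, Multiset.card_cons] at hc
  · rw [Multiset.sum_cons, Multiset.sum_cons, ← add_assoc, huv]
    abel

/-- two different members on different sides -/
theorem opp (f : G →+ H) (hf : Function.Surjective f) (k s : ℕ)
    (hk : k * Fintype.card H = Fintype.card G) (A : Finset G) (hsf : IsSumFree s A)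
    (hA : (A.image f).card * k < A.card + k) {x x' : H} (hne : x ≠ x') (U V : Multiset H)
    (hU : ∀ a ∈ U, a ∈ A.image f) (hV : ∀ a ∈ V, a ∈ A.image f)
    (hUs : Multiset.card U ≤ s) (hVs : Multiset.card V ≤ s)
    (hc : Multiset.card U ≠ Multiset.card V) (he : U.sum = V.sum) (hx : x ∈ U) (hx' : x' ∈ V) :
    False := by
  obtain ⟨U1, rfl⟩ := Multiset.exists_cons_of_mem hx
  obtain ⟨V1, rfl⟩ := Multiset.exists_cons_of_mem hx'
  obtain ⟨W, h1, h2, h3⟩ := lift f A U1 (fun b hb => hU b (Multiset.mem_cons_of_mem hb))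
  obtain ⟨Z, h4, h5, h6⟩ := lift f A V1 (fun b hb => hV b (Multiset.mem_cons_of_mem hb))
  rw [Multiset.sum_cons, Multiset.sum_cons] at he
  obtain ⟨u, hu, v, hv, -, -, huv⟩ := ex_sub f hf k hk A hA (hU x hx) (hV x' hx') hne
    (Z.sum - W.sum) (by
      rw [map_sub, h3, h6, sub_eq_sub_iff_add_eq_add, add_comm, he, add_comm])
  refine (isSumFree_iff s A).1 hsf (u ::ₘ W) (v ::ₘ Z) ?_ ?_ ?_ ?_ ?_ ?_
  · intro b hb
    rcases Multiset.mem_cons.1 hb with rfl | hb
    · exact hu
    · exact h1 b hb
  · intro b hb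
    rcases Multiset.mem_cons.1 hb with rfl | hb
    · exact hv
    · exact h4 b hb
  · rw [Multiset.card_cons, h2]
    rwa [Multiset.card_cons] at hUs
  · rw [Multiset.card_cons, h5]
    rwa [Multiset.card_cons] at hVs
  · rw [Multiset.card_cons, Multiset.card_cons, h2, h5]
    rwa [Multiset.card_cons, Multiset.card_cons] at hc
  · rw [Multiset.sum_cons, Multiset.sum_cons]
    have h7 : u = v + (Z.sum - W.sum) := by rw [← huv]; abel
    rw [h7]; abel

end

theorem t : G_FIB.{u} := by
  intro G H _ _ _ _ _ _ f hf k s hk A hsf hA U V hU hV hUs hVs hc he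
  have hex : ∃ x, x ∈ U ∨ x ∈ V := by
    by_contra h
    have h1 : U = 0 := Multiset.eq_zero_of_forall_notMem (fun a ha => h ⟨a, Or.inl ha⟩)
    have h2 : V = 0 := Multiset.eq_zero_of_forall_notMem (fun a ha => h ⟨a, Or.inr ha⟩)
    rw [h1, h2] at hc
    exact hc rfl
  obtain ⟨x, hx⟩ := hex
  refine ⟨x, ?_, ?_, ?_⟩
  · rcases hx with hx | hx
    · exact hU x hx
    · exact hV x hx
  · intro a ha
    by_contra hne
    rcases hx with hx | hx
    · exact same f hf k s hk A hsf hA hne U V hU hV hUs hVs hc he ha hx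
    · exact opp f hf k s hk A hsf hA hne U V hU hV hUs hVs hc he ha hx
  · intro a ha
    by_contra hne
    rcases hx with hx | hx
    · exact opp f hf k s hk A hsf hA (Ne.symm hne) U V hU hV hUs hVs hc he hx ha
    · exact same f hf k s hk A hsf hA hne V U hV hU hVs hUs hc.symm he.symm ha hx

end Pool.Agent.Helper28.SV.FIB
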